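import Pool.Agent.Helper60.LD.Tile
import Pool.Agent.Helper60.LD.Hole

/-!
# The least order of a planar reptile with a hole is two

Q2 asks for the least `n ≥ 2` for which there is an `n`-reptile with a hole. The answer is `2`: the
Lévy dragon, the compact set `L` with `L = f₀ L ∪ f₁ L`, `f₀ z = (1 + i) / 2 * z`,
`f₁ z = (1 - i) / 2 * z + (1 + i) / 2`, is the closure of its interior, its two halves have disjoint
interiors, and the component of the point `1/2 + 5/8 i` of its complement is bounded.

Proof. Let `L(a, b)` be the copy of `L` on the oriented segment from `a` to `b`. The copies on all the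
oriented edges of the square lattice cover the plane, so `L` has interior points (Baire), and
`|f₀ L| = |f₁ L| = |L| / 2` forces `|f₀ L ∩ f₁ L| = 0`. With `a = 1/2 + 3/4 i`, `b = 1/2 + 1/2 i` both
copies `L(a, b)` and `L(b, a)` are parts of `L`, of level four. Along the approximating polygons over
the two edges the argument around the midpoint `x` of `a`, `b` decreases in total by `2 π`, around
a far point `y` the total change is zero; if `x` and `y` were in one component of the complement of `L`
then a path from `x` to `y` would avoid all fine polygons, and along such a path the total change,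
a continuous function with values in `2 π ℤ`, is constant. At last `x` is not in `L`.
-/

set_option autoImplicit false

open Set Pointwise

namespace Pool.Agent.Results.MP_25e24e_co.LeastOrderIsTwo

/-- the Euclidean plane -/
abbrev Plane := EuclideanSpace ℝ (Fin 2)

/-- `X` is a tile: a bounded set which is the closure of its interior -/
def IsTile (X : Set Plane) : Prop := Bornology.IsBounded X ∧ X = closure (interior X)

/-- `X` is an `n`-reptile: a tile which is the union of `n` sets `g_i (n^{-1/2} X)`, `g_i` isometries of
the plane, with pairwise disjoint interiors -/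
def IsReptile (n : ℕ) (X : Set Plane) : Prop :=
  IsTile X ∧ ∃ g : Fin n → (Plane ≃ᵢ Plane),
    X = ⋃ i, g i '' ((√(n : ℝ))⁻¹ • X) ∧
    ∀ i j, i ≠ j → Disjoint (interior (g i '' ((√(n : ℝ))⁻¹ • X))) (interior (g j '' ((√(n : ℝ))⁻¹ • X)))

/-- `X` has a hole: some connected component of the complement is bounded -/
def HasHole (X : Set Plane) : Prop := ∃ x ∈ Xᶜ, Bornology.IsBounded (connectedComponentIn Xᶜ x)

open Pool.Agent.Helper60.LD

/-- the linear isometry from the complex plane to the Euclidean plane -/
noncomputable def e : ℂ ≃ₗᵢ[ℝ] Plane := Complex.orthonormalBasisOneI.repr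

/-- the Lévy dragon in the Euclidean plane -/
noncomputable def dragon : Set Plane := e '' L

lemma isTile_dragon : IsTile dragon := by
  refine ⟨e.lipschitz.isBounded_image isBounded_L, ?_⟩
  have h1 : interior (e '' L) = e '' interior L := (e.toHomeomorph.image_interior L).symm
  have h2 : closure (e '' interior L) = e '' closure (interior L) :=
    (e.toHomeomorph.image_closure _).symm
  rw [dragon, h1, h2, closure_interior]

lemma smul_dragon (s : ℝ) : s • dragon = e '' (s • L) := by
  rw [dragon, ← image_smul, ← image_smul, image_image, image_image]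
  exact image_congr fun x _ => (map_smul e s x).symm

/-- the conjugate isometry of the Euclidean plane -/
noncomputable def cj (h : ℂ ≃ᵢ ℂ) : Plane ≃ᵢ Plane :=
  (e.toIsometryEquiv.symm.trans h).trans e.toIsometryEquiv

lemma cj_image (h : ℂ ≃ᵢ ℂ) (A : Set ℂ) : cj h '' (e '' A) = e '' (h '' A) := by
  rw [image_image, image_image]
  refine image_congr fun x _ => ?_
  change e (h (e.symm (e x))) = e (h x)
  rw [e.symm_apply_apply]

lemma piece_eq (h : ℂ ≃ᵢ ℂ) : cj h '' ((√((2 : ℕ) : ℝ))⁻¹ • dragon) = e '' (h '' ((√2)⁻¹ • L)) := by
  rw [smul_dragon, cj_image, Nat.cast_ofNat]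

lemma isReptile_dragon : IsReptile 2 dragon := by
  refine ⟨isTile_dragon, fun i => cj (g i), ?_, ?_⟩
  · simp only [piece_eq]
    rw [← image_iUnion]
    have h1 : (⋃ i : Fin 2, g i '' ((√2)⁻¹ • L)) = f0 '' L ∪ f1 '' L := by
      rw [← g_zero_image, ← g_one_image]
      ext x
      simp [mem_iUnion, Fin.exists_fin_two]
    rw [h1, ← L_eq, dragon]
  · have key : ∀ A B : Set ℂ, Disjoint (interior A) (interior B) →
        Disjoint (interior (e '' A)) (interior (e '' B)) := by
      intro A B h
      have h1 : interior (e '' A) = e '' interior A := (e.toHomeomorph.image_interior A).symm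
      have h2 : interior (e '' B) = e '' interior B := (e.toHomeomorph.image_interior B).symm
      rw [h1, h2]
      exact (disjoint_image_iff e.injective).2 h
    intro i j hij
    simp only [piece_eq]
    apply key
    have h01 : Disjoint (interior (g 0 '' ((√2)⁻¹ • L))) (interior (g 1 '' ((√2)⁻¹ • L))) := by
      rw [g_zero_image, g_one_image]
      exact disjoint_pieces
    fin_cases i <;> fin_cases j
    · exact absurd rfl hij
    · exact h01
    · exact h01.symm
    · exact absurd rfl hij

lemma hasHole_dragon : HasHole dragon := by
  refine ⟨e X0, ?_, ?_⟩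
  · rintro ⟨z, hz, h⟩
    rw [e.injective h] at hz
    exact X0_notMem hz
  · have h1 : dragonᶜ = e.toHomeomorph '' Lᶜ := (image_compl_eq e.bijective).symm
    have h2 : connectedComponentIn dragonᶜ (e X0) = e '' connectedComponentIn Lᶜ X0 := by
      rw [h1]
      exact (e.toHomeomorph.image_connectedComponentIn X0_notMem).symm
    rw [h2]
    exact e.lipschitz.isBounded_image hole

/-- The least `n ≥ 2` for which there is an `n`-reptile with a hole is `2`. -/
theorem result : IsLeast {n : ℕ | 2 ≤ n ∧ ∃ X : Set Plane, IsReptile n X ∧ HasHole X} 2 :=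
  ⟨⟨le_rfl, dragon, isReptile_dragon, hasHole_dragon⟩, fun _ hn => hn.1⟩

end Pool.Agent.Results.MP_25e24e_co.LeastOrderIsTwo
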